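import Mathlib
import Pool.Agent.R233.BergFin

/-!
# Finite type domains whose Bergman projection is unbounded on `L^p`

For `n ≥ 3` and `a ≥ 1` let `Ω ⊂ ℂⁿ` be the domain
`|z₁|^{8a} + |z₂|⁴ + |z₁|^{2a} |z₂|² + |z₃|² + ... + |z_n|² < 1`.
It is a bounded complete Reinhardt domain, pseudoconvex, with real-analytic boundary, of finite type
at every boundary point. Its Bergman projection is unbounded on `L^p(Ω)` for all `p < 2 - 2/a` and
for all `p` whose conjugate exponent is `< 2 - 2/a`.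

Proof. By rotation invariance the projection maps `z^α |z^α|^{q-2}` (`1/p + 1/q = 1`) to
`(‖z^α‖_q^q / ‖z^α‖_2²) z^α`, so boundedness on `L^p` would give
`‖z^α‖_p ‖z^α‖_q ≤ C ‖z^α‖_2²` for all multi-indices `α`. Take `α = (a, 0, j, 0, …, 0)`, `j → ∞`.
With `t = 1/j` the mass of `|z^α|^s` sits at depth `t`, where the fibre
`{|z₁|^{8a} + |z₂|⁴ + |z₁|^{2a}|z₂|² < t}` consists of thin neighbourhoods of two discs which cross
at `0`. Its measure on the `z₁`-axis is `t |z₁|^{-2a}`, so `‖z^α‖_2²` and `‖z^α‖_q^q` (`q > 2`) are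
of the size predicted by `|z₁| ≈ t^{1/8a}`, while `‖z^α‖_p^p`, `p < 2 - 2/a`, is governed by
`|z₁| ≈ t^{1/4a}`; the quotient `‖z^α‖_p ‖z^α‖_q / ‖z^α‖_2²` tends to infinity like a negative power
of `t`.
-/

set_option autoImplicit false

open Pool.Agent.R233

namespace Pool.Agent.Results.MP_f12e57_an.FiniteTypeUnbounded

/-- For every `n ≥ 3` and every `p₀ < 2` there is a bounded pseudoconvex domain `Ω ⊂ ℂⁿ` with smooth
boundary of finite type whose Bergman projection is not bounded on `L^p(Ω)` for any `p ∈ (1, p₀]`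
nor for any `p ≥ p₀ / (p₀ - 1)` (the conjugate exponent of `p₀`). -/
theorem result (n : ℕ) (hn : 3 ≤ n) (p₀ : ℝ) (h1 : 1 < p₀) (h2 : p₀ < 2) :
    ∃ Ω : Set (Fin n → ℂ), IsFiniteTypeDomain Ω ∧
      ∀ p : ℝ, 1 < p → (p ≤ p₀ ∨ p₀ / (p₀ - 1) ≤ p) → ¬ BergmanProjectionBounded Ω p :=
  bergman_main n hn p₀ h1 h2

end Pool.Agent.Results.MP_f12e57_an.FiniteTypeUnbounded
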